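import Pool.Agent.H72.SW.Core

/-!
# Codes whose words have weight less than `3 (m + ω y)`
-/

set_option autoImplicit false

namespace Pool.Agent.H72.SX

open Pool.Agent.H35
open Pool.Agent.H72.SW
open Pool.Agent.H35.CX (Ctx rc_of_A lc_of_B rc_star lc_star fac facA exists_rc exists_lc not_N
  uniq ncut acut star_A star_B A_snoc B_cons endA endB mem_A_append)
open Pool.Agent.H35.FC (IsCode Facts Tiles star_nil star_append star_of_mem)
open Pool.Agent.H35.FS (deg deg_append deg_cons deg_snoc Wt SDeg star_of_deg le_deg last_letter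
  first_letter)

variable {α : Type}
variable {C : Set (List α)} {A B : List α → Set (List α)} {N : List α → List α → Set (List α)}

theorem A_drop (H : Ctx C A B N) {g z v : List α} (h : z ++ v ∈ A g) : v ∈ A (g ++ z) :=
  (mem_A_append H).2 (Or.inl h)

theorem B_drop (H : Ctx C A B N) {f z v : List α} (h : v ++ z ∈ B f) : v ∈ B (z ++ f) := by
  induction z generalizing v with
  | nil => simpa using h
  | cons x z ih =>
    refine (H.snB (z ++ f) x v).2 (Or.inl (ih ?_))
    simpa using h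

/-- If a word is not covered then it has a factorization. -/
theorem fact_of (H : Ctx C A B N) {g f u : List α} (h : u ∉ N g f) :
    ∃ s ∈ A g, ∃ c ∈ FC.Star C, ∃ b ∈ B f, s ++ (c ++ b) = u := by
  obtain ⟨⟨s, c, b⟩, ⟨h1, h2, h3, h4⟩, -⟩ := (H.tiles g f u).2 h
  exact ⟨s, h1, c, h2, b, h3, h4⟩

theorem N_congr (H : Ctx C A B N) {g f f' u : List α} (hB : B f = B f') (hu : u ∈ N g f) :
    u ∈ N g f' := by
  by_contra h
  obtain ⟨s, hs, c, hc, b, hb, e⟩ := fact_of H h
  rw [← hB] at hb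
  have := not_N H hs hc hb
  rw [e] at this
  exact this hu

theorem F1g (H : Ctx C A B N) {ω : α → ℕ} {m d : ℕ} {y : α} (hW : Wt C ω m)
    (hd : ∀ c ∈ C, deg ω c ≤ d) {g v : List α} (hg : [] ∉ A g) (hv : v ∈ A (g ++ [y])) :
    m + ω y + deg ω v ≤ d := by
  have h1 : y :: v ∈ A g := by
    rcases A_snoc H hv with h | ⟨h, -⟩
    · exact h
    · exact absurd h hg
  obtain ⟨p, -, hc, hp⟩ := H.srA g _ h1
  have h3 : m ≤ deg ω p := by
    apply le_deg hW
    intro h0
    exact hg (hp (star_of_deg hW h0))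
  have h2 := hd _ hc
  rw [deg_append, deg_cons] at h2
  omega

theorem F1g' (H : Ctx C A B N) {ω : α → ℕ} {m d : ℕ} {y : α} (hW : Wt C ω m)
    (hd : ∀ c ∈ C, deg ω c ≤ d) {f v : List α} (hf : [] ∉ B f) (hv : v ∈ B (y :: f)) :
    m + ω y + deg ω v ≤ d := by
  have h1 : v ++ [y] ∈ B f := by
    rcases B_cons H hv with h | ⟨h, -⟩
    · exact h
    · exact absurd h hf
  obtain ⟨p, -, hc, hp⟩ := H.srB f _ h1
  have h3 : m ≤ deg ω p := by
    apply le_deg hW
    intro h0
    exact hf (hp (star_of_deg hW h0))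
  have h2 := hd _ hc
  rw [deg_append, deg_snoc] at h2
  omega

theorem F2g (H : Ctx C A B N) {ω : α → ℕ} {m d : ℕ} {y : α} (hW : Wt C ω m)
    (hd : ∀ c ∈ C, deg ω c ≤ d) {g v : List α} (hg : [] ∉ A g) (hg' : [] ∉ A (g ++ [y]))
    (hv : v ∈ A (g ++ [y] ++ [y])) : m + 2 * ω y + deg ω v ≤ d := by
  have h1 : y :: v ∈ A (g ++ [y]) := by
    rcases A_snoc H hv with h | ⟨h, -⟩
    · exact h
    · exact absurd h hg'
  have := F1g H hW hd hg h1
  rw [deg_cons] at this
  omega

theorem F2g' (H : Ctx C A B N) {ω : α → ℕ} {m d : ℕ} {y : α} (hW : Wt C ω m)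
    (hd : ∀ c ∈ C, deg ω c ≤ d) {f v : List α} (hf : [] ∉ B f) (hf' : [] ∉ B (y :: f))
    (hv : v ∈ B (y :: y :: f)) : m + 2 * ω y + deg ω v ≤ d := by
  have h1 : v ++ [y] ∈ B (y :: f) := by
    rcases B_cons H hv with h | ⟨h, -⟩
    · exact h
    · exact absurd h hf'
  have := F1g' H hW hd hf h1
  rw [deg_snoc] at this
  omega

/-- CASE 1: all right contexts `y f`, `f` not complete, have the same completions. -/
theorem case_one (H : Ctx C A B N) (hne : ∀ g f, (N g f).Nonempty) {y : α}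
    (hP : ∀ g, [] ∉ A g → [] ∈ A (g ++ [y])) (hP' : ∀ f, [] ∉ B f → [] ∈ B (y :: f))
    (hB : ∀ f f', [] ∉ B f → [] ∉ B f' → B (y :: f) = B (y :: f')) : False := by
  obtain ⟨g, hg⟩ := exists_rc H
  -- there is a right context which is not complete
  obtain ⟨f0, hf0⟩ := exists_lc H
  obtain ⟨u0, hu0⟩ := hne g f0
  have hf1 : [] ∉ B (u0 ++ f0) := fun h =>
    ncut H (g := g) (u1 := []) (u2 := u0) (by simpa using hu0) (by rw [List.append_nil]; exact hg) h
  set f1 := u0 ++ f0 with hf1d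
  have hlf : [] ∈ B (y :: f1) := hP' f1 hf1
  -- the longest word
  obtain ⟨u, hu, hmax⟩ := (H.finN g (y :: f1)).exists_maximalFor List.length (N g (y :: f1))
    (hne g (y :: f1))
  have hgu : [] ∉ A (g ++ u) := fun h =>
    ncut H (g := g) (f := y :: f1) (u1 := u) (u2 := []) (by simpa using hu) h
      (by rw [List.nil_append]; exact hlf)
  have hh : [] ∈ A (g ++ u ++ [y]) := hP _ hgu
  obtain ⟨w, hw⟩ := hne (g ++ u ++ [y]) (y :: f1)
  have hwf : [] ∉ B (w ++ y :: f1) := fun h =>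
    ncut H (g := g ++ u ++ [y]) (u1 := []) (u2 := w) (by simpa using hw)
      (by rw [List.append_nil]; exact hh) h
  have hBe : B (y :: f1) = B (y :: (w ++ y :: f1)) := hB _ _ hf1 hwf
  have hu' : u ∈ N g (y :: (w ++ y :: f1)) := N_congr H hBe hu
  have hmem : u ++ y :: w ∈ N g (y :: f1) := by
    by_contra hcon
    obtain ⟨x, hx, c, hc, b, hb, e⟩ := fact_of H hcon
    rcases List.append_eq_append_iff.1 e with ⟨z, e1, e2⟩ | ⟨z, e1, e2⟩
    · -- `u = x ++ z`, `c ++ b = z ++ y :: w`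
      refine ncut H (g := g) (f := y :: (w ++ y :: f1)) (u1 := x) (u2 := z) (by rw [← e1]; exact hu')
        (rc_of_A H hx) ?_
      have h1 : [] ∈ B ((c ++ b) ++ y :: f1) := by
        rw [List.append_assoc]
        exact lc_star H hc (lc_of_B H hb)
      rw [e2] at h1
      simpa [CX.LC] using h1
    · -- `x = u ++ z`, `y :: w = z ++ (c ++ b)`
      rcases z with _ | ⟨y', z⟩
      · simp only [List.append_nil, List.nil_append] at e1 e2
        subst e1
        exact hgu (rc_of_A H hx)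
      · rw [List.cons_append, List.cons.injEq] at e2
        obtain ⟨rfl, e2⟩ := e2
        have h1 : z ∈ A (g ++ u ++ [y]) := by
          rw [List.append_assoc]
          apply A_drop H
          have h0 : u ++ y :: z ∈ A g := e1 ▸ hx
          simpa using h0
        have h2 := not_N H h1 hc hb
        rw [← e2] at h2
        exact h2 hw
  have h1 := hmax hmem (by simp)
  simp only [List.length_append, List.length_cons] at h1
  omega

theorem exists_short_pair {D E : Set (List α)} (h : D ≠ E) :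
    ∃ x, ((x ∈ D ∧ x ∉ E) ∨ (x ∈ E ∧ x ∉ D)) ∧
      ∀ z, z.length < x.length → (z ∈ D ↔ z ∈ E) := by
  have h1 : {x | (x ∈ D ∧ x ∉ E) ∨ (x ∈ E ∧ x ∉ D)}.Nonempty := by
    by_contra h2
    rw [Set.not_nonempty_iff_eq_empty] at h2
    apply h
    ext x
    have h3 : x ∉ {x | (x ∈ D ∧ x ∉ E) ∨ (x ∈ E ∧ x ∉ D)} := by
      rw [h2]
      exact Set.notMem_empty x
    simp only [Set.mem_ofPred_eq] at h3
    tauto
  obtain ⟨x, hx, h2⟩ := (InvImage.wf List.length Nat.lt_wfRel.wf).has_min _ h1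
  refine ⟨x, hx, fun z hz => ?_⟩
  have h3 : z ∉ {x | (x ∈ D ∧ x ∉ E) ∨ (x ∈ E ∧ x ∉ D)} := fun h4 => h2 z h4 hz
  simp only [Set.mem_ofPred_eq] at h3
  tauto

/-- The shortest word in which the completions of two right contexts differ is covered after
every complete left context. -/
theorem short_N (H : Ctx C A B N) {f f' w : List α} (hw : w ∈ B f) (hw' : w ∉ B f')
    (hs : ∀ z, z.length < w.length → (z ∈ B f ↔ z ∈ B f')) {g : List α} (hg : [] ∈ A g) :
    w ∈ N g f' := by
  by_contra hcon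
  obtain ⟨a, ha, c, hc, b, hb, e⟩ := fact_of H hcon
  have hl := congrArg List.length e
  simp only [List.length_append] at hl
  rcases Nat.lt_or_ge b.length w.length with h | h
  · have hb' : b ∈ B f := (hs b h).2 hb
    have h1 := uniq H (g := g) (f := f) ha hc hb' hg star_nil hw (by simpa using e)
    rw [h1.2.2] at h
    exact lt_irrefl _ h
  · have h1 : a = [] := List.length_eq_zero_iff.1 (by omega)
    have h2 : c = [] := List.length_eq_zero_iff.1 (by omega)
    subst h1
    subst h2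
    simp only [List.nil_append] at e
    exact hw' (e ▸ hb)

/-- CASE 2. -/
theorem case_two (H : Ctx C A B N) (hne : ∀ g f, (N g f).Nonempty) {y : α}
    (hP : ∀ g, [] ∉ A g → [] ∈ A (g ++ [y])) (hP' : ∀ f, [] ∉ B f → [] ∈ B (y :: f))
    {f f' w : List α} (hw : w ∈ B f) (hw' : w ∉ B (y :: f'))
    (hs : ∀ z, z.length < w.length → (z ∈ B f ↔ z ∈ B (y :: f'))) {g0 : List α}
    (hg0 : [] ∈ A g0) : ∃ v, v ++ y :: w ∈ N g0 (y :: f') := by
  have hN : ∀ g, [] ∈ A g → w ∈ N g (y :: f') := fun g hg => short_N H hw hw' hs hg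
  have hwf : [] ∉ B (w ++ y :: f') := fun h =>
    ncut H (g := g0) (u1 := []) (u2 := w) (by simpa using hN g0 hg0)
      (by rw [List.append_nil]; exact hg0) h
  have hk : [] ∈ B (y :: (w ++ y :: f')) := hP' _ hwf
  obtain ⟨v, hv⟩ := hne g0 (y :: (w ++ y :: f'))
  have hgv : [] ∉ A (g0 ++ v) := fun h =>
    ncut H (g := g0) (f := y :: (w ++ y :: f')) (u1 := v) (u2 := []) (by simpa using hv) h
      (by rw [List.nil_append]; exact hk)
  have hgvy : [] ∈ A (g0 ++ v ++ [y]) := hP _ hgv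
  have hwN := hN _ hgvy
  refine ⟨v, ?_⟩
  by_contra hcon
  obtain ⟨a, ha, c, hc, b, hb, e⟩ := fact_of H hcon
  have e' : (v ++ [y]) ++ w = (a ++ c) ++ b := by
    rw [List.append_assoc a, e]
    simp
  rcases List.append_eq_append_iff.1 e' with ⟨z, e1, e2⟩ | ⟨z, e1, e2⟩
  · -- `a ++ c = (v ++ [y]) ++ z`, `w = z ++ b`
    refine ncut H (g := g0 ++ v ++ [y]) (f := y :: f') (u1 := z) (u2 := b)
      (by rw [← e2]; exact hwN) ?_ (lc_of_B H hb)
    have h1 : [] ∈ A (g0 ++ (a ++ c)) := by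
      rw [← List.append_assoc]
      exact rc_star H (rc_of_A H ha) hc
    rw [e1] at h1
    simpa [CX.RC] using h1
  · -- `v ++ [y] = (a ++ c) ++ z`, `b = z ++ w`
    rcases List.eq_nil_or_concat z with hz | ⟨v', x, hz⟩
    · subst hz
      rw [List.nil_append] at e2
      subst e2
      exact hw' hb
    · rw [List.concat_eq_append] at hz
      subst hz
      rw [← List.append_assoc] at e1
      obtain ⟨e3, e4⟩ := List.append_inj' e1 rfl
      have e5 : y = x := by simpa using e4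
      subst e5
      have h1 : v' ∈ B ((y :: w) ++ y :: f') := by
        apply B_drop H
        rw [e2] at hb
        simpa using hb
      have h2 := not_N H ha hc (by simpa using h1 : v' ∈ B (y :: (w ++ y :: f')))
      apply h2
      rw [← List.append_assoc, ← e3]
      exact hv

/-- Codes with small weights have a context pair without covered words. -/
theorem exists_empty [Fintype α] [DecidableEq α] (hdeg : SDeg) (H : Ctx C A B N)
    {ω : α → ℕ} {m : ℕ} {y : α} (hy : ω y ≠ 0)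
    (hW : Wt C ω m) (h5 : ∀ w ∈ C, deg ω w < 3 * (m + ω y)) : ∃ g f, N g f = ∅ := by
  classical
  by_contra hN
  have hne : ∀ g f, (N g f).Nonempty := by
    intro g f
    rw [Set.nonempty_iff_ne_empty]
    exact fun h => hN ⟨g, f, h⟩
  -- the maximal weight
  obtain ⟨c0, hc0, hd⟩ := H.fin.exists_maximalFor (deg ω) C H.cne
  have hmax : ∀ c ∈ C, deg ω c ≤ deg ω c0 := by
    intro c hc
    rcases le_total (deg ω c) (deg ω c0) with h | h
    · exact h
    · exact hd hc h
  have hd5 := h5 c0 hc0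
  set d := deg ω c0 with hdd
  -- the minimal degrees
  have hσ : ∃ k, ∃ g, ∀ v ∈ A g, deg ω v ≤ k :=
    ⟨d, [y], fun v hv => by
      have := degA H (g := []) hmax hv
      omega⟩
  have hτ : ∃ k, ∃ f, ∀ v ∈ B f, deg ω v ≤ k :=
    ⟨d, [y], fun v hv => by
      have := degB H (f := []) hmax hv
      omega⟩
  set σ := Nat.find hσ with hσd
  set τ := Nat.find hτ with hτd
  have hσm : ∀ m < σ, ¬ ∃ g, ∀ v ∈ A g, deg ω v ≤ m := fun m hm => Nat.find_min hσ hm
  have hτm : ∀ m < τ, ¬ ∃ f, ∀ v ∈ B f, deg ω v ≤ m := fun m hm => Nat.find_min hτ hm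
  obtain ⟨g0, hg0⟩ := Nat.find_spec hσ
  obtain ⟨f0, hf0⟩ := Nat.find_spec hτ
  have hrc : [] ∈ A g0 := min_rc H hy hσm hg0
  have hlc : [] ∈ B f0 := min_lc H hy hτm hf0
  have key : ∀ g f u, u ∈ N g f → ∃ s ∈ A g, ∃ p ∈ B f, d + deg ω u ≤ deg ω s + deg ω p := by
    intro g f u hu
    have ht := H.tiles g f
    obtain ⟨s, hs, p, hp, hsp⟩ := hdeg α H.fin.toFinset (H.finA g).toFinset
      (H.finB f).toFinset (H.finN g f).toFinset ω y hy
      (by rw [Set.Finite.coe_toFinset]; exact H.code)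
      (by simpa only [Set.Finite.coe_toFinset] using ht) u
      ((Set.Finite.mem_toFinset _).2 hu) c0 ((Set.Finite.mem_toFinset _).2 hc0)
    rw [Set.Finite.mem_toFinset] at hs hp
    exact ⟨s, hs, p, hp, hsp⟩
  have hst : d + m ≤ σ + τ := by
    obtain ⟨u, hu⟩ := hne g0 f0
    obtain ⟨s, hs, p, hp, h1⟩ := key g0 f0 u hu
    have h2 := degN H hW hrc hlc hu
    have h3 := hg0 s hs
    have h4 := hf0 p hp
    omega
  have hσ2 : σ + (m + ω y) ≤ d := by
    by_contra hcon
    refine hN (emptyN H hW fun g b hb => ?_)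
    by_contra hr
    obtain ⟨h1, h2⟩ := two_A (y := y) H hW hmax hb hr
    have h3 : σ ≤ d - (m + ω y) := Nat.find_min' hσ ⟨_, h2⟩
    omega
  have hτ2 : τ + (m + ω y) ≤ d := by
    by_contra hcon
    refine hN (emptyN' H hW fun f b hb => ?_)
    by_contra hr
    obtain ⟨h1, h2⟩ := two_B (y := y) H hW hmax hb hr
    have h3 : τ ≤ d - (m + ω y) := Nat.find_min' hτ ⟨_, h2⟩
    omega
  -- `(1)`
  have hP : ∀ g, [] ∉ A g → [] ∈ A (g ++ [y]) := by
    intro g hg
    by_contra hgy
    obtain ⟨v0, hv0⟩ := H.neA (g ++ [y] ++ [y])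
    have h1 := F2g H hW hmax hg hgy hv0
    have h2 : σ ≤ d - (m + 2 * ω y) := Nat.find_min' hσ ⟨_, fun v hv => by
      have := F2g H hW hmax hg hgy hv
      omega⟩
    omega
  have hP' : ∀ f, [] ∉ B f → [] ∈ B (y :: f) := by
    intro f hf
    by_contra hfy
    obtain ⟨v0, hv0⟩ := H.neB (y :: y :: f)
    have h1 := F2g' H hW hmax hf hfy hv0
    have h2 : τ ≤ d - (m + 2 * ω y) := Nat.find_min' hτ ⟨_, fun v hv => by
      have := F2g' H hW hmax hf hfy hv
      omega⟩
    omega
  by_cases hB : ∀ f f', [] ∉ B f → [] ∉ B f' → B (y :: f) = B (y :: f')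
  · exact case_one H hne hP hP' hB
  · push Not at hB
    obtain ⟨f1, f2, hf1, hf2, hB⟩ := hB
    -- a right context `f'` and a word `w`
    obtain ⟨f, f', w, hf, hf', hw, hw', hs⟩ : ∃ f f' w, [] ∈ B f ∧ [] ∉ B f' ∧ w ∈ B f ∧
        w ∉ B (y :: f') ∧ ∀ z, z.length < w.length → (z ∈ B f ↔ z ∈ B (y :: f')) := by
      obtain ⟨w, hw, hs⟩ := exists_short_pair hB
      rcases hw with hw | hw
      · exact ⟨y :: f1, f2, w, hP' f1 hf1, hf2, hw.1, hw.2, hs⟩
      · exact ⟨y :: f2, f1, w, hP' f2 hf2, hf1, hw.1, hw.2, fun z hz => (hs z hz).symm⟩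
    have hwm : m ≤ deg ω w := by
      apply le_deg hW
      intro h0
      have h1 := star_B H hf (star_of_deg hW h0) hw
      subst h1
      exact hw' (hP' f' hf')
    -- the left context
    obtain ⟨u0, hu0⟩ := hne g0 f0
    have hg1 : [] ∉ A (g0 ++ u0) := fun h =>
      ncut H (g := g0) (f := f0) (u1 := u0) (u2 := []) (by simpa using hu0) h
        (by rw [List.nil_append]; exact hlc)
    obtain ⟨v, hv⟩ := case_two H hne hP hP' hw hw' hs (hP _ hg1)
    obtain ⟨s, hs', p, hp, h1⟩ := key _ _ _ hv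
    have h2 := F1g H hW hmax hg1 hs'
    have h3 := F1g' H hW hmax hf' hp
    rw [deg_append, deg_cons] at h1
    omega

/-- A code with such contexts and small weights has a tiling without `N`. -/
theorem tiling [Fintype α] [DecidableEq α] (hdeg : SDeg) (H : Ctx C A B N)
    {ω : α → ℕ} {m : ℕ} {y : α} (hy : ω y ≠ 0) (hW : Wt C ω m)
    (h5 : ∀ w ∈ C, deg ω w < 3 * (m + ω y)) :
    ∃ S P : Set (List α), S.Finite ∧ P.Finite ∧ Tiles C S P ∅ := by
  obtain ⟨g, f, h⟩ := exists_empty hdeg H hy hW h5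
  refine ⟨A g, B f, H.finA g, H.finB f, ?_⟩
  rw [← h]
  exact H.tiles g f

end Pool.Agent.H72.SX
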